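import Pool.Agent.W555.KS.Defs

/-! Project KS: minors of the generic matrix are nonzero. -/

set_option autoImplicit false

namespace Pool.Agent.W374.KS

open Finset MvPolynomial
open Pool.Agent.W555.KS

/-- KS-MIN -/
theorem minor : StMin := by
  classical
  intro m n r f g hf hg h
  have h1 : Matrix.det (Matrix.of (fun i j : Fin r => gen m n (f i) (g j))) =
      algebraMap (MvPolynomial (Fin m × Fin n) (ZMod 2)) (Kf m n)
        (Matrix.det (Matrix.of (fun i j : Fin r =>
          (X (f i, g j) : MvPolynomial (Fin m × Fin n) (ZMod 2))))) := by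
    rw [RingHom.map_det]
    rfl
  rw [h1] at h
  have h2 := (IsFractionRing.injective (MvPolynomial (Fin m × Fin n) (ZMod 2)) (Kf m n))
    (h.trans (map_zero _).symm)
  let φ : Fin m × Fin n → ZMod 2 := fun p => if ∃ k, p.1 = f k ∧ p.2 = g k then 1 else 0
  have h3 := congrArg (MvPolynomial.eval φ) h2
  rw [RingHom.map_det, map_zero] at h3
  have h4 : (MvPolynomial.eval φ).mapMatrix (Matrix.of (fun i j : Fin r =>
          (X (f i, g j) : MvPolynomial (Fin m × Fin n) (ZMod 2)))) = 1 := by
    ext i j
    simp only [RingHom.mapMatrix_apply, Matrix.map_apply, Matrix.of_apply, eval_X, φ,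
      Matrix.one_apply]
    by_cases hij : i = j
    · subst hij
      rw [if_pos ⟨i, rfl, rfl⟩, if_pos rfl]
    · rw [if_neg hij, if_neg]
      rintro ⟨k, hk1, hk2⟩
      exact hij ((hf hk1).trans (hg hk2).symm)
  rw [h4, Matrix.det_one] at h3
  exact one_ne_zero h3

end Pool.Agent.W374.KS
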